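import Pool.Agent.Y707.HC.Weil
import Pool.Agent.W165.CE.FF

/-! Jacobi sums of the quadratic character, and the top coefficient. -/

set_option autoImplicit false

namespace Pool.Agent.Y707.HC

open Polynomial Finset
open Pool.Agent.H341R2.Sharp

section
variable {F : Type*} [Field F] [Fintype F] [DecidableEq F]

/-- the Jacobi sums -/
def Js (m : ℕ) (c : F) : ℤ :=
  ∑ v : Fin m → F, if ∑ i, v i = c then ∏ i, quadraticChar F (v i) else 0

theorem Js_succ (m : ℕ) (c : F) :
    Js (m + 1) c = ∑ w : F, quadraticChar F w * Js m (c - w) := by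
  unfold Js
  rw [← (Fin.consEquiv fun _ : Fin (m + 1) => F).sum_comp, Fintype.sum_prod_type]
  refine sum_congr rfl fun w _ => ?_
  rw [mul_sum]
  refine sum_congr rfl fun v _ => ?_
  have h1 : (Fin.consEquiv fun _ : Fin (m + 1) => F) (w, v) = Fin.cons w v := rfl
  rw [h1, Fin.sum_univ_succ, Fin.prod_univ_succ]
  simp only [Fin.cons_zero, Fin.cons_succ]
  have h2 : (w + ∑ i, v i = c) ↔ (∑ i, v i = c - w) := by
    constructor
    · intro h
      rw [← h]
      ring
    · intro h
      rw [h]
      ring
  by_cases h : ∑ i, v i = c - w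
  · rw [if_pos (h2.2 h), if_pos h]
  · rw [if_neg (fun h' => h (h2.1 h')), if_neg h, mul_zero]

theorem Js_zero (c : F) : Js 0 c = if c = 0 then 1 else 0 := by
  unfold Js
  simp [eq_comm]

theorem Js_one (c : F) : Js 1 c = quadraticChar F c := by
  rw [Js_succ]
  have h1 : ∀ w : F, quadraticChar F w * Js 0 (c - w) = if w = c then quadraticChar F c else 0 := by
    intro w
    rw [Js_zero]
    by_cases h : w = c
    · rw [if_pos h, h, sub_self, if_pos rfl, mul_one]
    · rw [if_neg h, if_neg (fun h' => h (sub_eq_zero.1 h').symm), mul_zero]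
  rw [sum_congr rfl fun w _ => h1 w, sum_ite_eq' univ c, if_pos (mem_univ c)]

theorem sum_Js (hF : ringChar F ≠ 2) (m : ℕ) : ∑ c : F, Js (m + 1) c = 0 := by
  have h1 : ∀ c : F, Js (m + 1) c = ∑ w : F, quadraticChar F w * Js m (c - w) := Js_succ m
  rw [sum_congr rfl fun c _ => h1 c, sum_comm]
  have h2 : ∀ w : F, ∑ c : F, quadraticChar F w * Js m (c - w) =
      quadraticChar F w * ∑ c : F, Js m c := by
    intro w
    rw [mul_sum]
    exact (Equiv.subRight w).sum_comp fun c => quadraticChar F w * Js m c
  rw [sum_congr rfl fun w _ => h2 w, ← sum_mul, quadraticChar_sum_zero hF, zero_mul]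

/-- the convolution of the quadratic character with itself -/
theorem conv (hF : ringChar F ≠ 2) (z : F) :
    ∑ w : F, quadraticChar F w * quadraticChar F (z - w) =
      quadraticChar F (-1) * (if z = 0 then (Fintype.card F : ℤ) - 1 else -1) := by
  have h1 := W165.CE.sum_quad hF (-1) z 0 (neg_ne_zero.2 one_ne_zero)
  have h2 : ∀ w : F, quadraticChar F w * quadraticChar F (z - w) =
      quadraticChar F (-1 * w ^ 2 + z * w + 0) := by
    intro w
    rw [← map_mul]
    congr 1
    ring
  rw [sum_congr rfl fun w _ => h2 w, h1]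
  congr 1
  by_cases hz : z = 0
  · rw [if_pos hz, if_pos (by rw [hz]; ring)]
  · rw [if_neg hz, if_neg]
    intro h
    apply hz
    have : z ^ 2 = 0 := by linear_combination h
    exact pow_eq_zero_iff (two_ne_zero) |>.1 this

theorem Js_add_two (hF : ringChar F ≠ 2) (m : ℕ) (c : F) :
    Js (m + 3) c = quadraticChar F (-1) * (Fintype.card F : ℤ) * Js (m + 1) c := by
  have h1 : Js (m + 3) c = ∑ w : F, ∑ z : F, quadraticChar F w *
      (quadraticChar F (z - w) * Js (m + 1) (c - z)) := by
    rw [Js_succ]
    refine sum_congr rfl fun w _ => ?_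
    rw [Js_succ, mul_sum]
    rw [← (Equiv.subRight w).sum_comp]
    refine sum_congr rfl fun z _ => ?_
    simp only [Equiv.subRight_apply]
    rw [sub_sub_sub_cancel_right] 
  have h2 : Js (m + 3) c = ∑ z : F, (∑ w : F, quadraticChar F w * quadraticChar F (z - w)) *
      Js (m + 1) (c - z) := by
    rw [h1, sum_comm]
    refine sum_congr rfl fun z _ => ?_
    rw [sum_mul]
    exact sum_congr rfl fun w _ => by ring
  rw [h2]
  have h3 : ∀ z : F, (∑ w : F, quadraticChar F w * quadraticChar F (z - w)) *
      Js (m + 1) (c - z) = quadraticChar F (-1) * ((Fintype.card F : ℤ) *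
        (if z = 0 then Js (m + 1) c else 0) - Js (m + 1) (c - z)) := by
    intro z
    rw [conv hF]
    by_cases hz : z = 0
    · rw [if_pos hz, if_pos hz, hz, sub_zero]
      ring
    · rw [if_neg hz, if_neg hz]
      ring
  rw [sum_congr rfl fun z _ => h3 z, ← mul_sum, sum_sub_distrib, ← mul_sum, sum_ite_eq' univ
    (0 : F), if_pos (mem_univ _)]
  have h4 : ∑ z : F, Js (m + 1) (c - z) = 0 := by
    rw [← sum_Js hF m]
    exact (Equiv.subLeft c).sum_comp fun z => Js (m + 1) z
  rw [h4, sub_zero, mul_assoc]

theorem Js_odd (hF : ringChar F ≠ 2) (g : ℕ) (c : F) :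
    Js (2 * g + 1) c = (quadraticChar F (-1) * (Fintype.card F : ℤ)) ^ g * quadraticChar F c := by
  induction g with
  | zero => rw [mul_zero, zero_add, Js_one, pow_zero, one_mul]
  | succ g ih =>
    have e : 2 * (g + 1) + 1 = 2 * g + 3 := by ring
    rw [e, Js_add_two hF, ih, pow_succ]
    ring

/-- the split polynomial -/
noncomputable def sp {n : ℕ} (θ : Fin n → F) : F[X] := ∏ i, (X - C (θ i))

theorem sp_monic {n : ℕ} (θ : Fin n → F) : (sp θ).Monic :=
  monic_prod_of_monic _ _ fun i _ => monic_X_sub_C _

theorem sp_natDegree {n : ℕ} (θ : Fin n → F) : (sp θ).natDegree = n := by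
  unfold sp
  rw [natDegree_prod_of_monic _ _ fun i _ => monic_X_sub_C _]
  simp

theorem lam_sp {n : ℕ} (θ : Fin n → F) {h : F[X]} (hh : Even h.natDegree) :
    lam (sp θ) h = ∏ i, quadraticChar F (h.eval (θ i)) := by
  unfold lam
  have h1 := resultant_prod_right (univ : Finset (Fin n)) h (fun i => X - C (θ i)) h.natDegree
    le_rfl (by simp)
  unfold sp
  rw [h1, map_prod]
  refine prod_congr rfl fun i _ => ?_
  rw [natDegree_X_sub_C, resultant_X_sub_C_right _ _ _ le_rfl, hh.neg_one_pow, one_mul]

/-- the top coefficient, with the degree a variable -/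
theorem A_top' (hF : ringChar F ≠ 2) {n g : ℕ} (hn : n = 2 * g + 1) {θ : Fin n → F}
    (hθ : Function.Injective θ) : |A (sp θ) (2 * g)| = (Fintype.card F : ℤ) ^ g := by
  classical
  -- the weights
  obtain ⟨u, hu⟩ : ∃ u : Fin n → F, ∀ i, u i = ∏ j ∈ univ.erase i, (θ i - θ j) :=
    ⟨_, fun i => rfl⟩
  have hu0 : ∀ i, u i ≠ 0 := by
    intro i
    rw [hu]
    refine prod_ne_zero_iff.2 fun j hj => ?_
    rw [mem_erase] at hj
    exact sub_ne_zero.2 fun h => hj.1 (hθ h).symm
  have hinj : Set.InjOn θ (univ : Finset (Fin n)) := hθ.injOn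
  have e : n - 1 = 2 * g := by omega
  -- the bijection
  have h1 : A (sp θ) (2 * g) = ∑ v : Fin n → F,
      if ∑ i, v i = 1 then ∏ i, quadraticChar F (u i * v i) else 0 := by
    unfold A
    rw [← sum_filter]
    refine sum_bij' (fun h _ => fun i => h.eval (θ i) / u i)
      (fun v _ => Lagrange.interpolate univ θ fun i => u i * v i) ?_ ?_ ?_ ?_ ?_
    · intro h hh
      rw [mem_Mon] at hh
      rw [mem_filter]
      refine ⟨mem_univ _, ?_⟩
      have h2 : h.degree < #(univ : Finset (Fin n)) := by
        rw [card_univ, Fintype.card_fin, degree_eq_natDegree hh.1.ne_zero, hh.2]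
        exact_mod_cast (by omega : 2 * g < n)
      have h3 := Lagrange.coeff_eq_sum hinj h2
      rw [card_univ, Fintype.card_fin, e] at h3
      have h4 : h.coeff (2 * g) = 1 := by
        have := hh.1
        rw [Monic, leadingCoeff, hh.2] at this
        exact this
      rw [← h4, h3]
      exact sum_congr rfl fun i _ => by
        show h.eval (θ i) / u i = _
        rw [hu]
    · intro v hv
      rw [mem_filter] at hv
      rw [mem_Mon]
      obtain ⟨P, hP⟩ : ∃ P, P = Lagrange.interpolate univ θ fun i => u i * v i := ⟨_, rfl⟩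
      rw [← hP]
      have h2 : P.degree < #(univ : Finset (Fin n)) := by
        rw [hP]
        exact Lagrange.degree_interpolate_lt _ hinj
      have h3 := Lagrange.coeff_eq_sum hinj h2
      rw [card_univ, Fintype.card_fin] at h3 h2
      rw [e] at h3
      have h4 : P.coeff (2 * g) = 1 := by
        rw [h3, ← hv.2]
        refine sum_congr rfl fun i hi => ?_
        rw [hP, Lagrange.eval_interpolate_at_node _ hinj hi, ← hu]
        exact mul_div_cancel_left₀ _ (hu0 i)
      have h5 : P.natDegree = 2 * g := by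
        refine le_antisymm ?_ (le_natDegree_of_ne_zero (by rw [h4]; exact one_ne_zero))
        have h6 : P ≠ 0 := by
          intro h
          rw [h, coeff_zero] at h4
          exact zero_ne_one h4
        rw [degree_eq_natDegree h6] at h2
        have h7 : P.natDegree < n := by exact_mod_cast h2
        omega
      refine ⟨?_, h5⟩
      rw [Monic, leadingCoeff, h5, h4]
    · intro h hh
      rw [mem_Mon] at hh
      have h2 : h.degree < #(univ : Finset (Fin n)) := by
        rw [card_univ, Fintype.card_fin, degree_eq_natDegree hh.1.ne_zero, hh.2]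
        exact_mod_cast (by omega : 2 * g < n)
      have h3 := Lagrange.eq_interpolate hinj h2
      have h4 : (fun i => u i * (h.eval (θ i) / u i)) = fun i => h.eval (θ i) :=
        funext fun i => mul_div_cancel₀ _ (hu0 i)
      show Lagrange.interpolate univ θ (fun i => u i * (h.eval (θ i) / u i)) = h
      rw [h4, ← h3]
    · intro v hv
      funext i
      show (Lagrange.interpolate univ θ fun i => u i * v i).eval (θ i) / u i = v i
      rw [Lagrange.eval_interpolate_at_node _ hinj (mem_univ i)]
      exact mul_div_cancel_left₀ _ (hu0 i)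
    · intro h hh
      rw [mem_Mon] at hh
      rw [lam_sp θ (by rw [hh.2]; exact even_two_mul g)]
      refine prod_congr rfl fun i _ => ?_
      rw [mul_div_cancel₀ _ (hu0 i)]
  have h2 : A (sp θ) (2 * g) = (∏ i, quadraticChar F (u i)) * Js n (1 : F) := by
    rw [h1]
    unfold Js
    rw [mul_sum]
    refine sum_congr rfl fun v _ => ?_
    rw [mul_ite, mul_zero, ← prod_mul_distrib]
    congr 1
    exact prod_congr rfl fun i _ => map_mul _ _ _
  have h5 : Js n (1 : F) = (quadraticChar F (-1) * (Fintype.card F : ℤ)) ^ g := by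
    have : ∀ m : ℕ, m = 2 * g + 1 →
        Js m (1 : F) = (quadraticChar F (-1) * (Fintype.card F : ℤ)) ^ g := by
      rintro m rfl
      rw [Js_odd hF, map_one, mul_one]
    exact this n hn
  rw [h2, h5, abs_mul, abs_pow, abs_mul, Finset.abs_prod]
  have h3 : ∀ x : F, x ≠ 0 → |quadraticChar F x| = 1 := by
    intro x hx
    rcases quadraticChar_dichotomy hx with h | h <;> simp [h]
  rw [prod_congr rfl fun i _ => h3 _ (hu0 i), prod_const_one, one_mul,
    h3 _ (neg_ne_zero.2 one_ne_zero), one_mul, Nat.abs_cast]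

/-- the top coefficient -/
theorem A_top (hF : ringChar F ≠ 2) {g : ℕ} {θ : Fin (2 * g + 1) → F}
    (hθ : Function.Injective θ) : |A (sp θ) (2 * g)| = (Fintype.card F : ℤ) ^ g :=
  A_top' hF rfl hθ

end

end Pool.Agent.Y707.HC
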