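import Mathlib

/-! Power sums and products of linear factors. -/

set_option autoImplicit false

namespace Pool.Agent.Y707.HC

open Polynomial Finset

/-- the product of the factors `1 - ω X` -/
noncomputable def pr (γ : Multiset ℂ) : ℂ[X] := (γ.map fun w => 1 - C w * X).prod

/-- the power sums -/
noncomputable def ps (γ : Multiset ℂ) (m : ℕ) : ℂ := (γ.map fun w => w ^ m).sum

theorem pr_cons (w : ℂ) (γ : Multiset ℂ) : pr (w ::ₘ γ) = (1 - C w * X) * pr γ := by
  unfold pr
  rw [Multiset.map_cons, Multiset.prod_cons]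

theorem ps_cons (w : ℂ) (γ : Multiset ℂ) (m : ℕ) : ps (w ::ₘ γ) m = w ^ m + ps γ m := by
  unfold ps
  rw [Multiset.map_cons, Multiset.sum_cons]

theorem coeff_factor (w : ℂ) (P : ℂ[X]) (n : ℕ) :
    ((1 - C w * X) * P).coeff (n + 1) = P.coeff (n + 1) - w * P.coeff n := by
  have : (1 - C w * X) * P = P - C w * (X * P) := by ring
  rw [this, coeff_sub, coeff_C_mul, coeff_X_mul]

theorem coeff_factor_zero (w : ℂ) (P : ℂ[X]) : ((1 - C w * X) * P).coeff 0 = P.coeff 0 := by
  have : (1 - C w * X) * P = P - C w * (X * P) := by ring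
  rw [this, coeff_sub, coeff_C_mul, coeff_X_mul_zero, mul_zero, sub_zero]

theorem pr_coeff_zero (γ : Multiset ℂ) : (pr γ).coeff 0 = 1 := by
  induction γ using Multiset.induction_on with
  | empty => simp [pr]
  | cons w γ ih => rw [pr_cons, coeff_factor_zero, ih]

theorem sum_single_pow (w : ℂ) (P : ℂ[X]) (n : ℕ) :
    ∑ j ∈ range (n + 1), ((1 - C w * X) * P).coeff (n - j) * w ^ (j + 1) = w * P.coeff n := by
  induction n with
  | zero =>
    rw [zero_add, sum_range_one, Nat.sub_zero, coeff_factor_zero]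
    ring
  | succ n ih =>
    rw [sum_range_succ']
    have h1 : ∑ j ∈ range (n + 1), ((1 - C w * X) * P).coeff (n + 1 - (j + 1)) *
        w ^ (j + 1 + 1) = w * ∑ j ∈ range (n + 1), ((1 - C w * X) * P).coeff (n - j) *
        w ^ (j + 1) := by
      rw [mul_sum]
      refine sum_congr rfl fun j _ => ?_
      rw [Nat.add_sub_add_right]
      ring
    rw [h1, ih, Nat.sub_zero, coeff_factor]
    ring

theorem sum_factor (w : ℂ) (P : ℂ[X]) (S : ℕ → ℂ) (n : ℕ) :
    ∑ j ∈ range (n + 2), ((1 - C w * X) * P).coeff (n + 1 - j) * S (j + 1) =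
      ∑ j ∈ range (n + 2), P.coeff (n + 1 - j) * S (j + 1) -
        w * ∑ j ∈ range (n + 1), P.coeff (n - j) * S (j + 1) := by
  rw [sum_range_succ, sum_range_succ _ (n + 1), Nat.sub_self, coeff_factor_zero, mul_sum]
  have h1 : ∀ j ∈ range (n + 1), ((1 - C w * X) * P).coeff (n + 1 - j) * S (j + 1) =
      P.coeff (n + 1 - j) * S (j + 1) - w * (P.coeff (n - j) * S (j + 1)) := by
    intro j hj
    rw [mem_range] at hj
    have e : n + 1 - j = (n - j) + 1 := by omega
    rw [e, coeff_factor]
    ring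
  rw [sum_congr rfl h1, sum_sub_distrib]
  ring

/-- Newton's identities -/
theorem newton (γ : Multiset ℂ) (n : ℕ) :
    ((n + 1 : ℕ) : ℂ) * (pr γ).coeff (n + 1) =
      -∑ j ∈ range (n + 1), (pr γ).coeff (n - j) * ps γ (j + 1) := by
  induction γ using Multiset.induction_on generalizing n with
  | empty =>
    have h1 : ∀ m, ps 0 m = 0 := fun m => by simp [ps]
    have h2 : (pr 0).coeff (n + 1) = 0 := by simp [pr, coeff_one]
    rw [h2]
    simp [h1]
  | cons w γ ih =>
    rw [pr_cons]
    simp only [ps_cons, mul_add, sum_add_distrib]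
    rw [sum_single_pow, coeff_factor]
    cases n with
    | zero =>
      have h2 := ih 0
      simp only [zero_add, sum_range_one, Nat.sub_zero] at h2 ⊢
      rw [coeff_factor_zero]
      rw [pr_coeff_zero] at h2 ⊢
      push_cast at h2 ⊢
      linear_combination h2
    | succ k =>
      have h2 := ih (k + 1)
      have h3 := ih k
      rw [sum_factor]
      push_cast at h2 h3 ⊢
      linear_combination h2 - w * h3

theorem sum_Icc_eq (a S : ℕ → ℂ) (n : ℕ) :
    ∑ m ∈ Icc 1 (n + 1), a (n + 1 - m) * S m = ∑ j ∈ range (n + 1), a (n - j) * S (j + 1) := by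
  refine sum_nbij' (fun m => m - 1) (fun j => j + 1) ?_ ?_ ?_ ?_ ?_
  · intro m hm
    rw [mem_Icc] at hm
    rw [mem_range]
    omega
  · intro j hj
    rw [mem_range] at hj
    rw [mem_Icc]
    omega
  · intro m hm
    rw [mem_Icc] at hm
    omega
  · intro j _
    omega
  · intro m hm
    rw [mem_Icc] at hm
    have e1 : n - (m - 1) = n + 1 - m := by omega
    have e2 : m - 1 + 1 = m := by omega
    rw [e1, e2]

/-- the power sums are determined by the polynomial -/
theorem psum_unique {γ : Multiset ℂ} {S : ℕ → ℂ}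
    (hid : ∀ n : ℕ, (n : ℂ) * (pr γ).coeff n = ∑ m ∈ Icc 1 n, (pr γ).coeff (n - m) * S m) :
    ∀ n : ℕ, S (n + 1) = -ps γ (n + 1) := by
  intro n
  induction n using Nat.strong_induction_on with
  | _ n ih =>
    have h1 := hid (n + 1)
    rw [sum_Icc_eq, newton, sum_range_succ, sum_range_succ, Nat.sub_self, pr_coeff_zero] at h1
    have h2 : ∑ j ∈ range n, (pr γ).coeff (n - j) * S (j + 1) =
        -∑ j ∈ range n, (pr γ).coeff (n - j) * ps γ (j + 1) := by
      rw [← sum_neg_distrib]
      refine sum_congr rfl fun j hj => ?_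
      rw [ih j (mem_range.1 hj)]
      ring
    rw [h2] at h1
    linear_combination -h1

/-- a polynomial with constant term `1` is a product of factors -/
theorem exists_pr {a : ℂ[X]} (ha0 : a.coeff 0 = 1) :
    a = pr (a.roots.map fun z => z⁻¹) ∧ ∀ z ∈ a.roots, z ≠ 0 := by
  have ha : a ≠ 0 := by
    rintro rfl
    simp at ha0
  have hz : ∀ z ∈ a.roots, z ≠ 0 := by
    rintro z hz rfl
    rw [mem_roots ha, IsRoot.def, ← coeff_zero_eq_eval_zero, ha0] at hz
    exact one_ne_zero hz
  refine ⟨?_, hz⟩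
  have h1 := (IsAlgClosed.splits a).eq_prod_roots
  -- the product of the negatives of the roots
  have h2 : ∀ γ : Multiset ℂ, (∀ z ∈ γ, z ≠ 0) →
      (γ.map fun z => X - C z).prod = C ((γ.map fun z => -z).prod) *
        pr (γ.map fun z => z⁻¹) := by
    intro γ
    induction γ using Multiset.induction_on with
    | empty => intro _; simp [pr]
    | cons z γ ih =>
      intro h
      have hz0 := h z (Multiset.mem_cons_self z γ)
      rw [Multiset.map_cons, Multiset.prod_cons, Multiset.map_cons, Multiset.prod_cons,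
        Multiset.map_cons, pr_cons, ih fun y hy => h y (Multiset.mem_cons_of_mem hy)]
      have e : (X - C z : ℂ[X]) = C (-z) * (1 - C z⁻¹ * X) := by
        rw [mul_sub, mul_one, ← mul_assoc, ← C_mul, neg_mul, mul_inv_cancel₀ hz0, C_neg, C_neg,
          C_1]
        ring
      rw [e, C_mul]
      ring
  rw [h2 _ hz, ← mul_assoc, ← C_mul] at h1
  have h3 : a.leadingCoeff * (a.roots.map fun z => -z).prod = 1 := by
    have h4 := congrArg (fun P : ℂ[X] => P.coeff 0) h1
    simp only [coeff_C_mul] at h4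
    rw [ha0, pr_coeff_zero, mul_one] at h4
    exact h4.symm
  rw [h3, C_1, one_mul] at h1
  exact h1

/-- the last coefficient -/
theorem pr_coeff_card (γ : Multiset ℂ) :
    (pr γ).coeff γ.card = (γ.map fun w => -w).prod ∧ ∀ n, γ.card < n → (pr γ).coeff n = 0 := by
  induction γ using Multiset.induction_on with
  | empty =>
    refine ⟨by simp [pr], fun n hn => ?_⟩
    rw [Multiset.card_zero] at hn
    simp [pr, coeff_one, hn.ne']
  | cons w γ ih =>
    rw [pr_cons, Multiset.card_cons, Multiset.map_cons, Multiset.prod_cons]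
    refine ⟨?_, fun n hn => ?_⟩
    · rw [coeff_factor, ih.1, ih.2 _ (Nat.lt_succ_self _)]
      ring
    · obtain ⟨k, rfl⟩ : ∃ k, n = k + 1 := ⟨n - 1, by omega⟩
      rw [coeff_factor, ih.2 _ (by omega), ih.2 _ (by omega)]
      ring

/-- the extreme case of a product of bounded numbers -/
theorem norm_eq_of_prod {r : ℝ} (hr : 0 < r) (γ : Multiset ℂ) (h1 : ∀ z ∈ γ, ‖z‖ ≤ r)
    (h2 : r ^ γ.card ≤ ‖(γ.map fun w => -w).prod‖) : ∀ z ∈ γ, ‖z‖ = r := by
  have key : ∀ γ : Multiset ℂ, (∀ z ∈ γ, ‖z‖ ≤ r) → ‖(γ.map fun w => -w).prod‖ ≤ r ^ γ.card := by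
    intro γ
    induction γ using Multiset.induction_on with
    | empty => intro _; simp
    | cons w γ ih =>
      intro h
      rw [Multiset.map_cons, Multiset.prod_cons, Multiset.card_cons, norm_mul, norm_neg,
        pow_succ, mul_comm (r ^ _)]
      exact mul_le_mul (h w (Multiset.mem_cons_self w γ))
        (ih fun y hy => h y (Multiset.mem_cons_of_mem hy)) (norm_nonneg _) hr.le
  intro z hz
  refine le_antisymm (h1 z hz) ?_
  obtain ⟨δ, rfl⟩ := Multiset.exists_cons_of_mem hz
  rw [Multiset.map_cons, Multiset.prod_cons, Multiset.card_cons, norm_mul, norm_neg,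
    pow_succ] at h2
  have h3 := key δ fun y hy => h1 y (Multiset.mem_cons_of_mem hy)
  have h4 : 0 < r ^ δ.card := pow_pos hr _
  by_contra hlt
  rw [not_le] at hlt
  have h5 : ‖z‖ * ‖(δ.map fun w => -w).prod‖ ≤ ‖z‖ * r ^ δ.card :=
    mul_le_mul_of_nonneg_left h3 (norm_nonneg _)
  have h6 : ‖z‖ * r ^ δ.card < r * r ^ δ.card := mul_lt_mul_of_pos_right hlt h4
  linarith

end Pool.Agent.Y707.HC
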