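import Pool.Agent.Y707.HC.Roots
import Pool.Agent.H341R2.WeilSharp

/-! The numbers `ω` with `∑ χ(f(x)) = -∑ ω^m` over the extension of degree `m`. -/

set_option autoImplicit false

namespace Pool.Agent.Y707.HC

open Polynomial Finset
open Pool.Agent.H341R2.Sharp

section
variable {F : Type*} [Field F] [Fintype F] [DecidableEq F]

theorem exists_weil (hF : ringChar F ≠ 2) {f : F[X]} (hf : f.Monic) (hd : 1 ≤ f.natDegree)
    (hns : ∀ (c : F) (h : F[X]), f ≠ C c * h ^ 2)
    (htop : (Real.sqrt (Fintype.card F)) ^ (f.natDegree - 1) ≤ |(A f (f.natDegree - 1) : ℝ)|) :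
    ∃ γ : Multiset ℂ, γ.card = f.natDegree - 1 ∧ (∀ z ∈ γ, ‖z‖ = Real.sqrt (Fintype.card F)) ∧
      ∀ m : ℕ, ps γ (m + 1) = -(T f (m + 1) : ℂ) := by
  classical
  set d := f.natDegree with hdd
  obtain ⟨r, hr, hlam⟩ := exists_r hF hf hd hns
  have hA : ∀ n, d ≤ n → A f n = 0 := fun n hn => A_eq_zero f r hf hr hlam n hn
  set a : ℂ[X] := ∑ n ∈ range d, C (A f n : ℂ) * X ^ n with ha
  have hcoeff : ∀ n, a.coeff n = (A f n : ℂ) := by
    intro n
    rw [ha, finsetSum_coeff]
    simp_rw [coeff_C_mul_X_pow]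
    by_cases hn : n < d
    · rw [sum_eq_single n]
      · simp
      · intro m _ hm
        rw [if_neg (Ne.symm hm)]
      · intro h
        exact absurd (mem_range.2 hn) h
    · rw [hA n (by omega)]
      rw [sum_eq_zero]
      · simp
      · intro m hm
        rw [mem_range] at hm
        rw [if_neg (by omega)]
  have hq0 : 0 < Real.sqrt (Fintype.card F) := Real.sqrt_pos.2 (by exact_mod_cast Fintype.card_pos)
  have ha0 : a.coeff 0 = 1 := by rw [hcoeff, A_zero]; simp
  have hid : ∀ n : ℕ, (n : ℂ) * a.coeff n =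
      ∑ m ∈ Icc 1 n, a.coeff (n - m) * (fun m => (T f m : ℂ)) m := by
    intro n
    rw [hcoeff]
    have := n_mul_A f n
    simp_rw [hcoeff]
    exact_mod_cast this
  have hroot : ∀ z : ℂ, a.eval z = 0 → 1 ≤ Real.sqrt (Fintype.card F) * ‖z‖ := by
    intro z hz
    refine root_norm a ha0 (fun m => (T f m : ℂ)) (Real.sqrt (Fintype.card F)) (5 * d) hq0
      (by positivity) ?_ hid z hz
    intro m hm
    have := (T_bound hF hf hd hns m hm).1
    rw [Complex.norm_intCast]
    exact this
  obtain ⟨h1, h2⟩ := exists_pr ha0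
  have ha' : a ≠ 0 := by
    intro h
    rw [h] at ha0
    simp at ha0
  have hAne : (A f (d - 1) : ℂ) ≠ 0 := by
    intro h
    have h3 : (A f (d - 1) : ℝ) = 0 := by exact_mod_cast h
    rw [h3, abs_zero] at htop
    have h4 : 0 < (Real.sqrt (Fintype.card F)) ^ (d - 1) := pow_pos hq0 _
    linarith
  have hdeg : a.natDegree = d - 1 := by
    refine le_antisymm ?_ ?_
    · rw [natDegree_le_iff_coeff_eq_zero]
      intro n hn
      rw [hcoeff, hA n (by omega)]
      simp
    · refine le_natDegree_of_ne_zero ?_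
      rw [hcoeff]
      exact hAne
  have hcard : (a.roots.map fun z => z⁻¹).card = d - 1 := by
    rw [Multiset.card_map, ← hdeg]
    exact ((IsAlgClosed.splits a).natDegree_eq_card_roots).symm
  refine ⟨a.roots.map fun z => z⁻¹, hcard, ?_, ?_⟩
  · refine norm_eq_of_prod hq0 _ ?_ ?_
    · intro w hw
      obtain ⟨z, hz, rfl⟩ := Multiset.mem_map.1 hw
      have h3 := hroot z ((mem_roots ha').1 hz)
      have hz0 : 0 < ‖z‖ := norm_pos_iff.2 (h2 z hz)
      rw [norm_inv, inv_le_comm₀ hz0 hq0]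
      rw [inv_eq_one_div, div_le_iff₀ hq0, mul_comm]
      exact h3
    · rw [hcard, ← (pr_coeff_card _).1, hcard, ← h1, hcoeff, Complex.norm_intCast]
      exact htop
  · have hid' : ∀ n : ℕ, (n : ℂ) * (pr (a.roots.map fun z => z⁻¹)).coeff n =
        ∑ m ∈ Icc 1 n, (pr (a.roots.map fun z => z⁻¹)).coeff (n - m) *
          (fun m => (T f m : ℂ)) m := by
      rw [← h1]
      exact hid
    intro m
    have h3 := psum_unique hid' m
    rw [h3, neg_neg]

end

end Pool.Agent.Y707.HC
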